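import Pool.Agent.H5.S6.Stm
import Pool.Agent.H77.S6.LC6

/-!
# Lemma C for planks of equal precision in the two coordinates of the plane
-/

set_option autoImplicit false

namespace Pool.S6C

open Finset Real
open Pool.Agent.H49.Ent Pool.Agent.H32.Dense Pool.STK Pool.KA Pool.KSAT Pool.K2S Pool.PB Pool.KS6
  Pool.K3

theorem lcz_thm : LCZStmt := by
  classical
  intro a R ha hR hU η C hη hC N i0 iu iN hi w y p p1 hyw hwp1 hp1 hpN Q hQ
  have hN0 : 0 < N := by omega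
  have hNr : (0 : ℝ) < N := by exact_mod_cast hN0
  have ha0 : 0 < a := by linarith only [ha]
  refine Claim.one ⟨1, fun J F _ =>
    LABq F (Q J) i0 iu iN ((w - y) * (J / N)) 0 ((p1 - y - 1) * (J / N)) 2,
    fun J F _ => LABq.hered _ _ _ _ _ _ _ _ _⟩ fun κ hκ => ?_
  obtain ⟨τ', hτ'⟩ : ∃ τ', τ' = η / 16 := ⟨_, rfl⟩
  have hτ'0 : 0 < τ' := by rw [hτ']; positivity
  obtain ⟨τ, hτ⟩ : ∃ τ, τ = τ' / (7 * (1 + a)) := ⟨_, rfl⟩
  have hτ0 : 0 < τ := by rw [hτ]; positivity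
  obtain ⟨LM, hLM⟩ : ∃ LM : ℝ, LM = Real.log (2 * (2 * C + 9) + 1) := ⟨_, rfl⟩
  have hLM0 : 0 ≤ LM := by rw [hLM]; exact Real.log_nonneg (by linarith only [hC])
  obtain ⟨L6, hL6⟩ : ∃ L6 : ℝ, L6 = Real.log (2 * (6 * C + 40) + 1) := ⟨_, rfl⟩
  have hL60 : 0 ≤ L6 := by rw [hL6]; exact Real.log_nonneg (by linarith only [hC])
  obtain ⟨L3, hL3⟩ : ∃ L3 : ℝ, L3 = Real.log (2 * (392 * C + 4 * C ^ 2 + 9) + 1) := ⟨_, rfl⟩
  have hL30 : 0 ≤ L3 := by rw [hL3]; exact Real.log_nonneg (by nlinarith only [hC])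
  obtain ⟨cB, hcB⟩ : ∃ cB : ℝ, cB = Real.exp (-(8 * (3 * Real.log 15 +
    6 * Real.log (16 * C + 21)))) / 2 := ⟨_, rfl⟩
  have hcB0 : 0 < cB := by rw [hcB]; positivity
  obtain ⟨Cst, hCst⟩ : ∃ Cst : ℝ, Cst = 4 * LM + 4 * L6 + 3 * L3 + 2 * Real.log 5 +
    2 / κ + |Real.log (η / 8)| + η / 8 := ⟨_, rfl⟩
  have hl5 : 0 ≤ Real.log 5 := Real.log_nonneg (by norm_num)
  have hl20 : 0 ≤ Real.log 2 := Real.log_nonneg (by norm_num)
  have hl21 : Real.log 2 ≤ 1 := by
    have := Real.log_two_lt_d9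
    linarith only [this]
  have hCst0 : 0 ≤ Cst := by rw [hCst]; positivity
  obtain ⟨J₁, hJ₁⟩ := exists_nat_gt (Cst / (η / 8) + N * 32 + |Real.log (2 / cB)| / (κ / 2) + 1)
  refine ⟨τ, hτ0, J₁, ?_⟩
  intro J hJ F A hS hSb z hI he0 hφ hnum
  by_contra hn
  have hJr : Cst / (η / 8) + N * 32 + |Real.log (2 / cB)| / (κ / 2) + 1 < J :=
    hJ₁.trans_le (by exact_mod_cast hJ)
  have t1 : 0 ≤ Cst / (η / 8) := by positivity
  have t5 : 0 ≤ (N : ℝ) * 32 := by positivity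
  have t7 : 0 ≤ |Real.log (2 / cB)| / (κ / 2) := by positivity
  have hJ0 : (0 : ℝ) < J := by linarith only [hNr, hJr, t1, t7]
  have k1 : Cst < η / 8 * J := by
    have : Cst / (η / 8) < J := by linarith only [hNr, hJr, t7]
    rw [div_lt_iff₀ (by positivity)] at this
    linarith only [this]
  have k5 : (N : ℝ) * 32 < J := by linarith only [hJr, t1, t7]
  have k7 : Real.log (2 / cB) ≤ κ / 2 * J := by
    have : |Real.log (2 / cB)| / (κ / 2) < J := by linarith only [hNr, hJr, t1]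
    rw [div_lt_iff₀ (by positivity)] at this
    have h2 := le_abs_self (Real.log (2 / cB))
    linarith only [this, h2]
  obtain ⟨hTr, hMx, hRb, hPA⟩ := hS
  have hp := F.isLaw
  have hA0 : 0 < Pe F.p A := lt_of_lt_of_le (Real.exp_pos _) hPA
  -- scales
  obtain ⟨u, hu⟩ : ∃ u, u = J / N := ⟨_, rfl⟩
  have hu1 : N * u ≤ J := by rw [hu]; exact Nat.mul_div_le J N
  have hu2 : (J : ℝ) < N * (u + 1) := by
    have := Nat.lt_mul_div_succ J hN0
    rw [← hu] at this
    exact_mod_cast this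
  have hu3 : 31 < u := by
    have h1 : (N : ℝ) * 32 < N * (u + 1) := by linarith only [hJr, t1, t7, hu2]
    have h2 := lt_of_mul_lt_mul_left h1 hNr.le
    have h3 : (31 : ℝ) < u := by linarith only [h2]
    exact_mod_cast h3
  rw [← hu] at hn hI hnum
  have hs0 := hSb 0
  simp only [← hu] at hs0
  obtain ⟨hQ1, hQJ⟩ := hQ J
  rw [← hu] at hQ1
  -- the law
  obtain ⟨hlaw, -, hMx', -⟩ := max_res F ha hτ0.le hτ0.le hTr hMx hRb A hPA
  have e7 : (1 + a) * (5 * τ + τ) ≤ τ' := by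
    rw [hτ]
    have : (1 + a) * (5 * (τ' / (7 * (1 + a))) + τ' / (7 * (1 + a))) = 6 / 7 * τ' := by
      field_simp
      ring
    rw [this]
    linarith only [hτ'0]
  have hMx2 : (F.res A True hlaw).Mx a R τ' := Mx_mono e7 hMx'
  have hpos : ∀ ω, 0 < (F.res A True hlaw).p ω → A ω := fun ω hω => by
    have := ((cond_pos_iff hp.nonneg A True ω).1 hω).2
    simpa using this
  obtain ⟨φ, hφ⟩ := hφ
  -- arithmetic of the scales
  have hv : (w - y) * u + y * u = w * u := by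
    rw [← add_mul]
    congr 1
    omega
  have g1 : w * u + 6 ≤ p1 * u := by
    have h1 : (w + 1) * u ≤ p1 * u := Nat.mul_le_mul_right u (by omega)
    have h2 : (w + 1) * u = w * u + u := by ring
    omega
  have g2 : p1 * u + y * u ≤ p * u := by
    rw [← add_mul]
    exact Nat.mul_le_mul_right u hp1
  have g3 : p * u ≤ Q J := hQ1
  obtain ⟨β, hβ⟩ : ∃ β : ℝ, β = Real.exp (-(κ / 2 * J)) := ⟨_, rfl⟩
  have hβ0 : 0 < β := by rw [hβ]; exact Real.exp_pos _
  -- close planks are rare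
  have hrare : Pe (prs (F.res A True hlaw) ((w - y) * u)) (fun ww => Cls 0
      ((w - y) * u + y * u) 0 (p1 * u) (z ww.1) (z ww.2)) ≤ β := by
    by_contra hcon
    push Not at hcon
    have hP2 : (p1 - y - 1) * u + y * u + 0 + 6 ≤ p1 * u := by
      have h1 : (p1 - y - 1) * u + y * u + u = p1 * u := by
        have h3 : p1 = (p1 - y - 1) + y + 1 := by omega
        calc (p1 - y - 1) * u + y * u + u = ((p1 - y - 1) + y + 1) * u := by ring
          _ = p1 * u := by rw [← h3]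
      omega
    obtain ⟨B, hB1, hB2, hB3⟩ := cls_lab F hQJ hi (v := (w - y) * u) (y := y * u) (lam := 0)
      (P := p * u) (P1 := p1 * u) (b := 0) (l2 := 0)
      (P2 := (p1 - y - 1) * u) hC hA0
      (by rw [hv]; exact hI) hφ hlaw
      (by omega) g2 g3 rfl hP2 hβ0 hcon.le
    rcases hs0 with hs0 | hs0
    · exact hn hs0
    · refine hs0 B hB1 ?_ hB3
      refine le_trans ?_ hB2
      rw [← hcB]
      have q1 : Real.exp (-(κ / 2 * J)) ≤ cB / 2 := by
        have h1 : 2 / cB ≤ Real.exp (κ / 2 * J) := by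
          rw [← Real.log_le_iff_le_exp (by positivity)]
          exact k7
        rw [Real.exp_neg, inv_eq_one_div, div_le_div_iff₀ (Real.exp_pos _) (by norm_num)]
        rw [div_le_iff₀ hcB0] at h1
        linarith only [h1]
      have q2 : Real.exp (-(κ * J)) = Real.exp (-(κ / 2 * J)) * β := by
        rw [hβ, ← Real.exp_add]
        congr 1
        ring
      rw [q2]
      calc Real.exp (-(κ / 2 * J)) * β * Pe F.p A ≤ cB / 2 * β * Pe F.p A := by
            refine mul_le_mul_of_nonneg_right ?_ hA0.le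
            exact mul_le_mul_of_nonneg_right q1 hβ0.le
        _ ≤ _ := by
            have : 0 ≤ cB * (β * Pe F.p A) := by positivity
            linarith only [this]
  -- the rows
  have hP1J : p1 * u ≤ J := by omega
  have hQJr : ((Q J : ℕ) : ℝ) ≤ J := by exact_mod_cast hQJ
  obtain ⟨R1, hR1⟩ : ∃ R1, R1 = CH (Pool.Agent.H49.Ent.cond F.p A True) (F.X (Q J))
    (fun ω => (F.X (p1 * u) ω, F.W ω)) := ⟨_, rfl⟩
  have hρ1 : CH (F.res A True hlaw).p ((F.res A True hlaw).X (Q J))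
      (fun ω => ((F.res A True hlaw).X (p1 * u) ω, (F.res A True hlaw).W ω)) ≤ R1 :=
    le_of_eq hR1.symm
  have hfam := lemC_fam (F.res A True hlaw) hQJ hi (v := (w - y) * u) (y := y * u) (lam := 0)
    (P := p * u) (P1 := p1 * u) (b := y * u) (l2 := 0) hC (z := z)
    (by rw [hv]; exact fun ω hω => hI ω (hpos ω hω))
    (φ := φ) (fun ω hω => hφ ω (hpos ω hω)) (by omega) g2 g3 le_rfl (by omega)
    (by
      intro ww hww
      obtain ⟨a1, a2, a3, a4, a5, a6⟩ := prs_pos hww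
      rw [he0 _ (hpos _ a1), he0 _ (hpos _ a2)]
      simp)
    hMx2.1 le_rfl hρ1 hrare
  obtain ⟨H, hH⟩ : ∃ H, H = CH (Pool.Agent.H49.Ent.cond F.p A True) (F.X (Q J))
      (fun ω => (z ω, F.W ω)) := ⟨_, rfl⟩
  have hH' : CH (F.res A True hlaw).p ((F.res A True hlaw).X (Q J))
    (fun ω => (z ω, (F.res A True hlaw).W ω)) = H := hH.symm
  rw [hH'] at hfam
  rw [← hH] at hnum
  rw [← hR1] at hnum
  -- the errors
  have hE3 : β * ((Q J : ℕ) : ℝ) * Real.log 2 ≤ 2 / κ := by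
    have h0 : β * ((Q J : ℕ) : ℝ) ≤ β * J := mul_le_mul_of_nonneg_left hQJr hβ0.le
    have h1 : β * ((Q J : ℕ) : ℝ) * Real.log 2 ≤ β * ((Q J : ℕ) : ℝ) * 1 :=
      mul_le_mul_of_nonneg_left hl21 (by positivity)
    have h2 : β * J ≤ 2 / κ := by
      have h1 := exp_mul_le (κ := κ / 2) (J := (J : ℝ)) (by positivity)
      rw [hβ]
      refine h1.trans (le_of_eq ?_)
      field_simp
    linarith only [h0, h1, h2]
  have hE4 : Real.log (((p1 * u : ℕ) : ℝ) + 1) ≤ η / 8 * J + η / 8 + |Real.log (η / 8)| := by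
    have h1 : Real.log (η / 8 * (((p1 * u : ℕ) : ℝ) + 1)) ≤
        η / 8 * (((p1 * u : ℕ) : ℝ) + 1) - 1 := Real.log_le_sub_one_of_pos (by positivity)
    rw [Real.log_mul (by positivity) (by positivity)] at h1
    have h2 := neg_abs_le (Real.log (η / 8))
    have h3 : ((p1 * u : ℕ) : ℝ) ≤ J := by exact_mod_cast hP1J
    have h4 : η / 8 * ((p1 * u : ℕ) : ℝ) ≤ η / 8 * J :=
      mul_le_mul_of_nonneg_left h3 (by positivity)
    linarith only [h1, h2, h4]
  have hE6 : 2 * (τ' * J) ≤ η / 8 * J := by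
    have h1 : τ' ≤ η / 16 := le_of_eq hτ'
    have h2 := mul_le_mul_of_nonneg_right h1 hJ0.le
    linarith only [h2]
  have hvr : (((w - y) * u : ℕ) : ℝ) + ((y * u : ℕ) : ℝ) = ((w * u : ℕ) : ℝ) := by
    exact_mod_cast hv
  have hy3 : ((3 * y * u : ℕ) : ℝ) = 3 * ((y * u : ℕ) : ℝ) := by
    push_cast; ring
  rw [hvr] at hfam
  rw [hy3] at hnum
  rw [← hLM, ← hL6, ← hL3, Nat.cast_zero] at hfam
  rw [hCst] at k1
  linarith only [hCst, hCst0, k1, hnum, hfam, hE3, hE4, hE6]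

end Pool.S6C
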