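import Pool.Agent.H36.S6.ActE

/-!
# Activity and time for the blocks near the place `P - g` of the local data
-/

set_option autoImplicit false

namespace Pool.S6C

open Finset Real
open Pool.Agent.H49.Ent Pool.Agent.H32.Dense Pool.STK Pool.KA Pool.KSAT Pool.K2S Pool.PB Pool.KS6
  Pool.Sel51

/-- **The time is full given the line.** -/
theorem time_clp {S : PCl 3} {a R : ℝ} (ha : 1 ≤ a)
    (hst : ∀ (τ : ℝ) (J : ℕ) (F : Fam 3 J) (A : F.Ω → Prop), S.St τ J F A → Fam.Stt F a R τ A)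
    {h : ℝ} (hh : 0 < h) : Clp S (fun J F A => (J : ℝ) * Real.log 2 - h * J ≤
      CH (Pool.Agent.H49.Ent.cond F.p A True) F.T (fun ω => (F.l ω, F.Z ω))) := by
  obtain ⟨τ, hτ⟩ : ∃ τ, τ = h / (7 * (1 + a)) := ⟨_, rfl⟩
  have ha0 : 0 < 1 + a := by linarith
  have hτ0 : 0 < τ := by
    rw [hτ]
    positivity
  refine Clp.of hτ0 0 fun J _ F A hA => ?_
  have h1 := hst τ J F A hA
  obtain ⟨hlw, -, hMx, -⟩ := h1.res ha hτ0.le
  have hJ0 : (0 : ℝ) ≤ J := Nat.cast_nonneg J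
  have e1 : (1 + a) * (6 * τ) ≤ h := by
    rw [hτ]
    have : (1 + a) * (6 * (h / (7 * (1 + a)))) = 6 / 7 * h := by
      field_simp
    rw [this]
    linarith
  have h2 := hMx.1
  unfold Fam.Tm at h2
  have h3 : (1 + a) * (6 * τ) * J ≤ h * J := mul_le_mul_of_nonneg_right e1 hJ0
  have h4 : CH (F.res A True hlw).p (F.res A True hlw).T
      (fun ω => ((F.res A True hlw).l ω, (F.res A True hlw).Z ω)) =
      CH (Pool.Agent.H49.Ent.cond F.p A True) F.T (fun ω => (F.l ω, F.Z ω)) := rfl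
  rw [h4] at h2
  linarith

/-- **Activity of the blocks** near the place where the activity numbers have the slope `α`. The
block has the length about `x J`, the zone the radius `C x J`. -/
theorem act_zone {S : PCl 3} {i₀ : Fin 3} {act : ℚ → ℝ}
    (hpos : ∀ (τ : ℝ) (J : ℕ) (F : Fam 3 J) (A : F.Ω → Prop), S.St τ J F A → 0 < Pe F.p A)
    (hA : ActN S i₀ act)
    (hmono : ∀ q q' : ℚ, 0 ≤ q → q ≤ q' → q' ≤ 1 → act q ≤ act q')
    (hlip : ∀ q q' : ℚ, 0 ≤ q → q ≤ q' → q' ≤ 1 → act q' - act q ≤ q' - q)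
    {q₀ a₀ α : ℝ} (hα : 0 < α) (hq1 : q₀ < 1) (hs : Slp act q₀ a₀ α) {κ ϖ C : ℝ} (hκ : 0 < κ)
    (hϖ : 0 < ϖ) (hC : 0 < C) :
    ∃ δ : ℝ, 0 < δ ∧ ∀ x : ℝ, 0 < x → x ≤ δ → Clp S (fun J F A => ∀ X : ℕ, x / 2 * J ≤ X →
      ∀ q X' : ℕ, κ * X ≤ X' → |(q : ℝ) - q₀ * J| ≤ C * x * J →
      |((q + X' : ℕ) : ℝ) - q₀ * J| ≤ C * x * J → ∀ E : F.Ω → Prop, Sub E A →
      ϖ * Pe F.p A ≤ Pe F.p E → α / 2 * X' * Real.log 2 ≤
        CH (Pool.Agent.H49.Ent.cond F.p E True) (fun ω => F.D (q + X') ω i₀)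
          (fun ω => (F.D q ω i₀, Fam.pt F ω))) := by
  have hl2 : 0 < Real.log 2 := Real.log_pos (by norm_num)
  obtain ⟨ε, hε⟩ : ∃ ε, ε = α * κ * Real.log 2 / (4 * C) := ⟨_, rfl⟩
  have hε0 : 0 < ε := by
    rw [hε]
    positivity
  obtain ⟨δ, hδ, hb⟩ := act_blk hpos hA hmono hlip hs hε0 hϖ
  refine ⟨min (δ / C) ((1 - q₀) / C), lt_min (by positivity)
    (div_pos (by linarith) hC), fun x hx hxδ => ?_⟩
  have h1 : C * x ≤ δ := by
    have := hxδ.trans (min_le_left _ _)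
    rw [le_div_iff₀ hC] at this
    linarith
  have h2 : C * x ≤ 1 - q₀ := by
    have := hxδ.trans (min_le_right _ _)
    rw [le_div_iff₀ hC] at this
    linarith
  refine Clp.mono (J₂ := 0) (hb (C * x) (by positivity) h1) ?_
  intro J _ F A hg X hX q X' hκX h3 h4 E hE hPE
  have hJ0 : (0 : ℝ) ≤ J := Nat.cast_nonneg J
  have h5 : q + X' ≤ J := by
    have h6 := (abs_le.1 h4).2
    have h7 : C * x * J ≤ (1 - q₀) * J := mul_le_mul_of_nonneg_right h2 hJ0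
    have h8 : ((q + X' : ℕ) : ℝ) ≤ J := by linarith
    exact_mod_cast h8
  have h9 := (abs_le.1 (hg E hE hPE q X' h5 h3 h4)).1
  have h10 : ε * (C * x) * J ≤ α / 2 * X' * Real.log 2 := by
    have e1 : ε * (C * x) * J = α / 2 * (κ * (x / 2 * J)) * Real.log 2 := by
      rw [hε]
      field_simp
      ring
    rw [e1]
    refine mul_le_mul_of_nonneg_right ?_ hl2.le
    refine mul_le_mul_of_nonneg_left ?_ (by positivity)
    exact (mul_le_mul_of_nonneg_left hX hκ.le).trans hκX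
  linarith

/-- **Activity and time on the local data**: the fields `act` and `time` of `Pool.RPL.RIn`, with
`ca = α / 2`, blocks of length `X ≥ x J / 2`, places at distance at most `C x J` from
`(P - g) J`. -/
theorem rpl_act_time {S : PCl 3} {a R h₁ : ℝ} {i₀ : Fin 3} {c s₂ : ℝ} {r : ℝ → ℝ} {D : Set ℝ}
    {σ : ℝ → Row} (hC : Cs S a R h₁ i₀ c s₂ r D σ) {act : ℚ → ℝ} {K : Set ℝ} {W : ℝ → ℝ}
    {v₁ t : ℚ} {e₁ Q₀ P g v₀ v ρ a₀ α : ℝ}
    (hL : Loc S i₀ c s₂ r D σ act K W v₁ t e₁ Q₀ P g v₀ v ρ a₀ α) {κ ϖ C lm : ℝ} (hκ : 0 < κ)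
    (hϖ : 0 < ϖ) (hC0 : 0 < C) (hlm : 0 < lm) :
    ∃ δ : ℝ, 0 < δ ∧ ∀ x : ℝ, 0 < x → x ≤ δ → Clp S (fun J F A => ∀ X : ℕ, x / 2 * J ≤ X →
      ((J : ℝ) * Real.log 2 - lm * X ≤
        CH (Pool.Agent.H49.Ent.cond F.p A True) F.T (fun ω => (F.l ω, F.Z ω))) ∧
      ∀ q X' : ℕ, κ * X ≤ X' → |(q : ℝ) - (P - g) * J| ≤ C * x * J →
      |((q + X' : ℕ) : ℝ) - (P - g) * J| ≤ C * x * J → ∀ E : F.Ω → Prop, Sub E A →
      ϖ * Pe F.p A ≤ Pe F.p E → α / 2 * X' * Real.log 2 ≤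
        CH (Pool.Agent.H49.Ent.cond F.p E True) (fun ω => F.D (q + X') ω i₀)
          (fun ω => (F.D q ω i₀, Fam.pt F ω))) := by
  have hpos : ∀ (τ : ℝ) (J : ℕ) (F : Fam 3 J) (A : F.Ω → Prop), S.St τ J F A → 0 < Pe F.p A :=
    fun τ J F A hA => lt_of_lt_of_le (Real.exp_pos _) (hC.st τ J F A hA).2.2.2
  have hq1 : P - g < 1 := by
    have h1 := (hL.pr Q₀ hL.top).lt1
    have h2 := (hL.pr g hL.thk).half
    have h3 := hL.PQ
    linarith
  obtain ⟨δ, hδ, h⟩ := act_zone hpos hL.actN hL.amono hL.alip hL.α0 hq1 hL.aslp hκ hϖ hC0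
  refine ⟨δ, hδ, fun x hx hxδ => ?_⟩
  refine Clp.mono (J₂ := 0) ((h x hx hxδ).and
    (time_clp hC.a1.le hC.st (h := lm * (x / 2)) (by positivity))) ?_
  rintro J - F A ⟨h1, h2⟩ X hX
  refine ⟨?_, h1 X hX⟩
  have h3 : lm * (x / 2) * J ≤ lm * X := by
    rw [mul_assoc]
    exact mul_le_mul_of_nonneg_left hX hlm.le
  linarith

end Pool.S6C
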